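import Pool.Agent.Helper530.Sq.Assembly

/-!
# Sequences that are limit periodic in the mean

A sequence `X` of natural numbers is limit periodic in the mean if for every `ε > 0` there is a
periodic sequence `f` with `∑ n < N, |X n - f n| ≤ ε N` for all large `N`.
-/

set_option autoImplicit false

namespace Pool.Agent.Y795.SQF

open Finset Filter Topology
open Pool.Agent.Helper530.Sq.SqFAsm

/-- limit periodic in the mean (real sequences) -/
def LP (Z : ℕ → ℝ) : Prop :=
  ∀ ε : ℝ, 0 < ε → ∃ (P : ℕ) (f : ℕ → ℝ), 0 < P ∧ (∀ n, f (n + P) = f n) ∧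
    ∀ᶠ N : ℕ in atTop, ∑ n ∈ range N, |Z n - f n| ≤ ε * N

/-- limit periodic in the mean (sequences of natural numbers) -/
def LPN (X : ℕ → ℕ) : Prop :=
  ∀ ε : ℝ, 0 < ε → ∃ (P : ℕ) (f : ℕ → ℕ), 0 < P ∧ (∀ n, f (n + P) = f n) ∧
    ∀ᶠ N : ℕ in atTop, ∑ n ∈ range N, |(X n : ℝ) - (f n : ℝ)| ≤ ε * N

theorem periodic_bdd (f : ℕ → ℝ) (P : ℕ) (hP : 0 < P) (hf : ∀ n, f (n + P) = f n) :
    ∃ B : ℝ, 0 ≤ B ∧ ∀ n, |f n| ≤ B := by
  refine ⟨∑ m ∈ range P, |f m|, Finset.sum_nonneg fun _ _ => abs_nonneg _, fun n => ?_⟩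
  have h1 : f (n % P) = f n := Function.Periodic.map_mod_nat (fun x => hf x) n
  rw [← h1]
  exact Finset.single_le_sum (f := fun m => |f m|) (fun _ _ => abs_nonneg _)
    (Finset.mem_range.2 (Nat.mod_lt n hP))

theorem periodic_mean (f : ℕ → ℝ) (P : ℕ) (hP : 0 < P) (hf : ∀ n, f (n + P) = f n) :
    ∃ l, Tendsto (fun N : ℕ => (∑ n ∈ range N, f n) / (N : ℝ)) atTop (𝓝 l) := by
  set l : ℝ := (∑ n ∈ range P, f n) / P with hl
  have hPr : (P : ℝ) ≠ 0 := by exact_mod_cast hP.ne'
  obtain ⟨B, hB0, hB⟩ := periodic_bdd (fun N => (∑ n ∈ range N, f n) - l * N) P hP (by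
    intro N
    have e1 : ∑ n ∈ range (N + P), f n = ∑ n ∈ range P, f n + ∑ n ∈ range N, f n := by
      rw [Nat.add_comm N P, Finset.sum_range_add]
      congr 1
      refine Finset.sum_congr rfl fun n _ => ?_
      rw [Nat.add_comm]
      exact hf n
    rw [e1]
    push_cast
    have e2 : l * P = ∑ n ∈ range P, f n := by rw [hl]; field_simp
    linear_combination -e2)
  refine ⟨l, ?_⟩
  have h0 : Tendsto (fun N : ℕ => B / (N : ℝ)) atTop (𝓝 0) := tendsto_const_div_atTop_nhds_zero_nat B
  rw [tendsto_iff_norm_sub_tendsto_zero]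
  refine squeeze_zero' (Eventually.of_forall fun _ => norm_nonneg _) ?_ h0
  filter_upwards [eventually_gt_atTop 0] with N hN
  have hNr : (0 : ℝ) < N := by exact_mod_cast hN
  rw [Real.norm_eq_abs]
  have e3 : (∑ n ∈ range N, f n) / (N : ℝ) - l = ((∑ n ∈ range N, f n) - l * N) / N := by
    field_simp
  rw [e3, abs_div, abs_of_pos hNr]
  exact div_le_div_of_nonneg_right (hB N) hNr.le

theorem LP.mean {Z : ℕ → ℝ} (h : LP Z) :
    ∃ l, Tendsto (fun N : ℕ => (∑ n ∈ range N, Z n) / (N : ℝ)) atTop (𝓝 l) := by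
  apply conv_of_approx
  intro ε hε
  obtain ⟨P, f, hP, hf, hE⟩ := h ε hε
  obtain ⟨l, hl⟩ := periodic_mean f P hP hf
  refine ⟨_, l, hl, ?_⟩
  filter_upwards [hE, eventually_gt_atTop 0] with N hN hN0
  have hNr : (0 : ℝ) < N := by exact_mod_cast hN0
  rw [← sub_div, ← Finset.sum_sub_distrib, abs_div, abs_of_pos hNr, div_le_iff₀ hNr]
  exact (Finset.abs_sum_le_sum_abs _ _).trans hN

theorem LPN.toLP {X : ℕ → ℕ} (h : LPN X) : LP (fun n => (X n : ℝ)) := by
  intro ε hε
  obtain ⟨P, f, hP, hf, hE⟩ := h ε hε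
  exact ⟨P, fun n => (f n : ℝ), hP, fun n => by simp only [hf n], hE⟩

/-- restriction to a residue class -/
theorem LPN.ap {X : ℕ → ℕ} (h : LPN X) (q a : ℕ) (hq : 0 < q) :
    LP (fun n => if n % q = a % q then (X n : ℝ) else 0) := by
  intro ε hε
  obtain ⟨P, f, hP, hf, hE⟩ := h ε hε
  have hf2 : ∀ m n, f (n + P * m) = f n := by
    intro m
    induction m with
    | zero => intro n; simp
    | succ m ih =>
      intro n
      rw [show n + P * (m + 1) = (n + P * m) + P by ring, hf, ih]
  refine ⟨P * q, fun n => if n % q = a % q then (f n : ℝ) else 0, Nat.mul_pos hP hq, ?_, ?_⟩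
  · intro n
    simp only [Nat.add_mul_mod_self_right, hf2]
  · filter_upwards [hE] with N hN
    refine le_trans (Finset.sum_le_sum fun n _ => ?_) hN
    split_ifs
    · exact le_rfl
    · simp

/-- patterns -/
theorem LPN.pattern {X : ℕ → ℕ} (hX : LPN X) (m : ℕ) (h j : Fin m → ℕ) :
    LP (fun n => if ∀ i, X (n + h i) = j i then (1 : ℝ) else 0) := by
  intro ε hε
  set δ : ℝ := ε / (2 * m + 1) with hδ
  have hδ0 : 0 < δ := by positivity
  obtain ⟨P, f, hP, hf, hE⟩ := hX δ hδ0
  refine ⟨P, fun n => if ∀ i, f (n + h i) = j i then (1 : ℝ) else 0, hP, ?_, ?_⟩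
  · intro n
    have : ∀ i, f (n + P + h i) = f (n + h i) := by
      intro i
      rw [show n + P + h i = (n + h i) + P by ring, hf]
    simp only [this]
  · have hE2 : ∀ i : Fin m, ∀ᶠ N : ℕ in atTop,
        ∑ n ∈ range (N + h i), |(X n : ℝ) - (f n : ℝ)| ≤ δ * ((N + h i : ℕ) : ℝ) :=
      fun i => (tendsto_add_atTop_nat (h i)).eventually hE
    have hE3 : ∀ᶠ N : ℕ in atTop, ∀ i : Fin m,
        ∑ n ∈ range (N + h i), |(X n : ℝ) - (f n : ℝ)| ≤ δ * ((N + h i : ℕ) : ℝ) :=
      eventually_all.2 hE2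
    have hE4 : ∀ᶠ N : ℕ in atTop, ∀ i : Fin m, h i ≤ N :=
      eventually_all.2 fun i => eventually_ge_atTop (h i)
    filter_upwards [hE3, hE4] with N h3 h4
    have hpt : ∀ n, |(if ∀ i, X (n + h i) = j i then (1 : ℝ) else 0) -
        (if ∀ i, f (n + h i) = j i then (1 : ℝ) else 0)| ≤
        ∑ i : Fin m, |(X (n + h i) : ℝ) - (f (n + h i) : ℝ)| := by
      intro n
      by_cases hall : ∀ i, X (n + h i) = f (n + h i)
      · have : (∀ i, X (n + h i) = j i) ↔ (∀ i, f (n + h i) = j i) := by
          simp only [hall]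
        simp only [this, sub_self, abs_zero]
        exact Finset.sum_nonneg fun _ _ => abs_nonneg _
      · push Not at hall
        obtain ⟨i, hi⟩ := hall
        have h1 : (1 : ℝ) ≤ |(X (n + h i) : ℝ) - (f (n + h i) : ℝ)| := by
          have h2 : (1 : ℤ) ≤ |(X (n + h i) : ℤ) - (f (n + h i) : ℤ)| := by
            apply Int.one_le_abs
            intro h0
            apply hi
            have : (X (n + h i) : ℤ) = (f (n + h i) : ℤ) := by linarith
            exact_mod_cast this
          have h5 : ((|(X (n + h i) : ℤ) - (f (n + h i) : ℤ)| : ℤ) : ℝ) =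
            |(X (n + h i) : ℝ) - (f (n + h i) : ℝ)| := by push_cast; rfl
          rw [← h5]
          exact_mod_cast h2
        have h2 : |(X (n + h i) : ℝ) - (f (n + h i) : ℝ)| ≤
            ∑ i : Fin m, |(X (n + h i) : ℝ) - (f (n + h i) : ℝ)| :=
          Finset.single_le_sum (f := fun i => |(X (n + h i) : ℝ) - (f (n + h i) : ℝ)|)
            (fun _ _ => abs_nonneg _) (Finset.mem_univ i)
        refine le_trans ?_ (h1.trans h2)
        split_ifs <;> simp
    calc ∑ n ∈ range N, |(if ∀ i, X (n + h i) = j i then (1 : ℝ) else 0) -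
        (if ∀ i, f (n + h i) = j i then (1 : ℝ) else 0)|
        ≤ ∑ n ∈ range N, ∑ i : Fin m, |(X (n + h i) : ℝ) - (f (n + h i) : ℝ)| :=
          Finset.sum_le_sum fun n _ => hpt n
      _ = ∑ i : Fin m, ∑ n ∈ range N, |(X (n + h i) : ℝ) - (f (n + h i) : ℝ)| :=
          Finset.sum_comm
      _ ≤ ∑ i : Fin m, δ * (2 * N) := by
          refine Finset.sum_le_sum fun i _ => ?_
          have e1 : ∑ n ∈ range N, |(X (n + h i) : ℝ) - (f (n + h i) : ℝ)| ≤
              ∑ n ∈ range (N + h i), |(X n : ℝ) - (f n : ℝ)| := by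
            rw [Nat.add_comm N (h i), Finset.sum_range_add]
            have e2 : ∑ n ∈ range N, |(X (n + h i) : ℝ) - (f (n + h i) : ℝ)| =
                ∑ n ∈ range N, |(X (h i + n) : ℝ) - (f (h i + n) : ℝ)| :=
              Finset.sum_congr rfl fun n _ => by rw [Nat.add_comm]
            rw [e2]
            have : 0 ≤ ∑ n ∈ range (h i), |(X n : ℝ) - (f n : ℝ)| :=
              Finset.sum_nonneg fun _ _ => abs_nonneg _
            linarith
          refine e1.trans ((h3 i).trans ?_)
          have e3 : ((N + h i : ℕ) : ℝ) ≤ 2 * N := by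
            have := h4 i
            have : N + h i ≤ 2 * N := by omega
            exact_mod_cast this
          exact mul_le_mul_of_nonneg_left e3 hδ0.le
      _ = (2 * m) * δ * N := by
          rw [Finset.sum_const, Finset.card_univ, Fintype.card_fin, nsmul_eq_mul]; ring
      _ ≤ ε * N := by
          apply mul_le_mul_of_nonneg_right _ (Nat.cast_nonneg N)
          rw [hδ]
          rw [mul_div_assoc', div_le_iff₀ (by positivity)]
          nlinarith [(Nat.cast_nonneg m : (0 : ℝ) ≤ m)]

theorem pattern_sum (X : ℕ → ℕ) (m : ℕ) (h j : Fin m → ℕ) (N : ℕ) :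
    ∑ n ∈ range N, (if ∀ i, X (n + h i) = j i then (1 : ℝ) else 0) =
      (((range N).filter (fun n => ∀ i, X (n + h i) = j i)).card : ℝ) := by
  rw [Finset.sum_boole]

theorem LPN.pattern_density {X : ℕ → ℕ} (hX : LPN X) (m : ℕ) (h j : Fin m → ℕ) :
    ∃ δ : ℝ, Tendsto (fun N : ℕ =>
      (((range N).filter (fun n => ∀ i, X (n + h i) = j i)).card : ℝ) / (N : ℝ))
      atTop (𝓝 δ) := by
  obtain ⟨l, hl⟩ := (hX.pattern m h j).mean
  refine ⟨l, ?_⟩
  simp only [pattern_sum] at hl
  exact hl

theorem LPN.value_density {X : ℕ → ℕ} (hX : LPN X) (j : ℕ) :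
    ∃ δ : ℝ, Tendsto (fun N : ℕ => (((range N).filter (fun n => X n = j)).card : ℝ) / (N : ℝ))
      atTop (𝓝 δ) := by
  obtain ⟨l, hl⟩ := hX.pattern_density 1 (fun _ => 0) (fun _ => j)
  refine ⟨l, ?_⟩
  simpa using hl

/-- the limit distribution -/
theorem LPN.distribution {X : ℕ → ℕ} (hX : LPN X) :
    ∃ (γ : ℝ) (d : ℕ → ℝ),
      Tendsto (fun N : ℕ => (∑ n ∈ range N, (X n : ℝ)) / (N : ℝ)) atTop (𝓝 γ) ∧
      (∀ j, Tendsto (fun N : ℕ => (((range N).filter (fun n => X n = j)).card : ℝ) / (N : ℝ))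
        atTop (𝓝 (d j))) ∧ HasSum d 1 ∧ HasSum (fun j : ℕ => (j : ℝ) * d j) γ := by
  classical
  obtain ⟨γ, hγ⟩ := hX.toLP.mean
  choose d hd using hX.value_density
  have hd0 : ∀ j, 0 ≤ d j := fun j => ge_of_tendsto' (hd j) fun N => by positivity
  -- partial sums
  have hcard : ∀ J N : ℕ, ∑ j ∈ range J, (((range N).filter (fun n => X n = j)).card : ℝ) =
      (((range N).filter (fun n => X n < J)).card : ℝ) := by
    intro J N
    rw [← Nat.cast_sum]
    congr 1
    have h1 := Finset.card_eq_sum_card_fiberwise (s := (range N).filter (fun n => X n < J))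
      (t := range J) (f := X) (by
        intro n hn
        have := (Finset.mem_filter.1 hn).2
        exact Finset.mem_coe.2 (Finset.mem_range.2 this))
    rw [h1]
    refine Finset.sum_congr rfl fun j hj => ?_
    congr 1
    ext n
    simp only [Finset.mem_filter]
    have hj' := Finset.mem_range.1 hj
    constructor
    · rintro ⟨a, b⟩; exact ⟨⟨a, by omega⟩, b⟩
    · rintro ⟨⟨a, _⟩, b⟩; exact ⟨a, b⟩
  have hD : ∀ J : ℕ, Tendsto (fun N : ℕ =>
      (((range N).filter (fun n => X n < J)).card : ℝ) / (N : ℝ)) atTop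
      (𝓝 (∑ j ∈ range J, d j)) := by
    intro J
    have := tendsto_finsetSum (range J) fun j _ => hd j
    refine this.congr fun N => ?_
    rw [← hcard, Finset.sum_div]
  have hsum2 : ∀ J N : ℕ,
      ∑ j ∈ range J, (j : ℝ) * (((range N).filter (fun n => X n = j)).card : ℝ) =
      ∑ n ∈ (range N).filter (fun n => X n < J), (X n : ℝ) := by
    intro J N
    rw [← Finset.sum_fiberwise_of_maps_to (s := (range N).filter (fun n => X n < J))
      (t := range J) (g := X) (by
        intro n hn
        have := (Finset.mem_filter.1 hn).2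
        exact Finset.mem_range.2 this)]
    refine Finset.sum_congr rfl fun j hj => ?_
    have hj' := Finset.mem_range.1 hj
    have e1 : ((range N).filter (fun n => X n < J)).filter (fun n => X n = j) =
        (range N).filter (fun n => X n = j) := by
      ext n
      simp only [Finset.mem_filter]
      constructor
      · rintro ⟨⟨a, _⟩, b⟩; exact ⟨a, b⟩
      · rintro ⟨a, b⟩; exact ⟨⟨a, by omega⟩, b⟩
    rw [e1]
    rw [Finset.sum_congr rfl (g := fun _ => (j : ℝ)) (fun n hn => by
      rw [(Finset.mem_filter.1 hn).2])]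
    rw [Finset.sum_const, nsmul_eq_mul]
    ring
  have hE : ∀ J : ℕ, Tendsto (fun N : ℕ =>
      (∑ n ∈ (range N).filter (fun n => X n < J), (X n : ℝ)) / (N : ℝ)) atTop
      (𝓝 (∑ j ∈ range J, (j : ℝ) * d j)) := by
    intro J
    have := tendsto_finsetSum (range J) fun j _ => (hd j).const_mul (j : ℝ)
    refine this.congr fun N => ?_
    rw [← hsum2, Finset.sum_div]
    refine Finset.sum_congr rfl fun j _ => ?_
    ring
  -- Markov
  have hT : ∀ J : ℕ, (J : ℝ) * (1 - ∑ j ∈ range J, d j) ≤ γ := by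
    intro J
    have h1 : Tendsto (fun N : ℕ => (J : ℝ) *
        (1 - (((range N).filter (fun n => X n < J)).card : ℝ) / (N : ℝ))) atTop
        (𝓝 ((J : ℝ) * (1 - ∑ j ∈ range J, d j))) := ((hD J).const_sub 1).const_mul _
    refine le_of_tendsto_of_tendsto h1 hγ ?_
    filter_upwards [eventually_gt_atTop 0] with N hN
    have hNr : (0 : ℝ) < N := by exact_mod_cast hN
    rw [le_div_iff₀ hNr]
    have e1 : (J : ℝ) * (1 - (((range N).filter (fun n => X n < J)).card : ℝ) / (N : ℝ)) * N =
        J * (N - (((range N).filter (fun n => X n < J)).card : ℝ)) := by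
      field_simp
    rw [e1]
    have e2 : (N : ℝ) - (((range N).filter (fun n => X n < J)).card : ℝ) =
        (((range N).filter (fun n => ¬ X n < J)).card : ℝ) := by
      have := Finset.card_filter_add_card_filter_not (s := range N) (fun n => X n < J)
      rw [Finset.card_range] at this
      have h2 : (((range N).filter (fun n => X n < J)).card : ℝ) +
        (((range N).filter (fun n => ¬ X n < J)).card : ℝ) = N := by exact_mod_cast this
      linarith
    rw [e2]
    calc (J : ℝ) * (((range N).filter (fun n => ¬ X n < J)).card : ℝ)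
        = ∑ n ∈ (range N).filter (fun n => ¬ X n < J), (J : ℝ) := by
          rw [Finset.sum_const, nsmul_eq_mul]; ring
      _ ≤ ∑ n ∈ (range N).filter (fun n => ¬ X n < J), (X n : ℝ) := by
          refine Finset.sum_le_sum fun n hn => ?_
          have := (Finset.mem_filter.1 hn).2
          exact_mod_cast (by omega : J ≤ X n)
      _ ≤ ∑ n ∈ range N, (X n : ℝ) :=
          Finset.sum_le_sum_of_subset_of_nonneg (Finset.filter_subset _ _)
            (fun _ _ _ => Nat.cast_nonneg _)
  have hT0 : ∀ J : ℕ, 0 ≤ 1 - ∑ j ∈ range J, d j := by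
    intro J
    have h1 : ∑ j ∈ range J, d j ≤ 1 := by
      refine le_of_tendsto (hD J) ?_
      filter_upwards [eventually_gt_atTop 0] with N hN
      have hNr : (0 : ℝ) < N := by exact_mod_cast hN
      rw [div_le_one hNr]
      have := Finset.card_filter_le (range N) (fun n => X n < J)
      rw [Finset.card_range] at this
      exact_mod_cast this
    linarith
  have hsumd : Tendsto (fun J : ℕ => ∑ j ∈ range J, d j) atTop (𝓝 1) := by
    have h1 : Tendsto (fun J : ℕ => γ / (J : ℝ)) atTop (𝓝 0) :=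
      tendsto_const_div_atTop_nhds_zero_nat γ
    have h2 : Tendsto (fun J : ℕ => 1 - ∑ j ∈ range J, d j) atTop (𝓝 0) := by
      refine squeeze_zero' (Eventually.of_forall hT0) ?_ h1
      filter_upwards [eventually_gt_atTop 0] with J hJ
      have hJr : (0 : ℝ) < J := by exact_mod_cast hJ
      rw [le_div_iff₀ hJr, mul_comm]
      exact hT J
    have h3 := h2.const_sub 1
    simp only [sub_sub_cancel, sub_zero] at h3
    exact h3
  -- uniform integrability
  have hsume : Tendsto (fun J : ℕ => ∑ j ∈ range J, (j : ℝ) * d j) atTop (𝓝 γ) := by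
    have hup : ∀ J : ℕ, ∑ j ∈ range J, (j : ℝ) * d j ≤ γ := by
      intro J
      refine le_of_tendsto_of_tendsto' (hE J) hγ fun N => ?_
      apply div_le_div_of_nonneg_right _ (Nat.cast_nonneg N)
      exact Finset.sum_le_sum_of_subset_of_nonneg (Finset.filter_subset _ _)
            (fun _ _ _ => Nat.cast_nonneg _)
    rw [Metric.tendsto_atTop]
    intro ε hε
    obtain ⟨P, f, hP, hf, hEv⟩ := hX (ε / 4) (by positivity)
    obtain ⟨B, hB0, hB⟩ := periodic_bdd (fun n => (f n : ℝ)) P hP (fun n => by simp only [hf n])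
    have hlow : ∀ J : ℕ, γ - ∑ j ∈ range J, (j : ℝ) * d j ≤
        ε / 4 + B * (1 - ∑ j ∈ range J, d j) := by
      intro J
      refine le_of_tendsto_of_tendsto (hγ.sub (hE J))
        (((hD J).const_sub 1).const_mul B |>.const_add (ε / 4)) ?_
      filter_upwards [hEv, eventually_gt_atTop 0] with N hN hN0
      have hNr : (0 : ℝ) < N := by exact_mod_cast hN0
      have e0 : (N : ℝ) - (((range N).filter (fun n => X n < J)).card : ℝ) =
          (((range N).filter (fun n => ¬ X n < J)).card : ℝ) := by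
        have := Finset.card_filter_add_card_filter_not (s := range N) (fun n => X n < J)
        rw [Finset.card_range] at this
        have h2 : (((range N).filter (fun n => X n < J)).card : ℝ) +
          (((range N).filter (fun n => ¬ X n < J)).card : ℝ) = N := by exact_mod_cast this
        linarith
      have e1 : (∑ n ∈ range N, (X n : ℝ)) -
          ∑ n ∈ (range N).filter (fun n => X n < J), (X n : ℝ) =
          ∑ n ∈ (range N).filter (fun n => ¬ X n < J), (X n : ℝ) := by
        have := Finset.sum_filter_add_sum_filter_not (range N) (fun n => X n < J)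
          (fun n => (X n : ℝ))
        linarith
      have e2 : ∑ n ∈ (range N).filter (fun n => ¬ X n < J), (X n : ℝ) ≤
          ∑ n ∈ (range N).filter (fun n => ¬ X n < J), |(X n : ℝ) - (f n : ℝ)| +
          ∑ n ∈ (range N).filter (fun n => ¬ X n < J), B := by
        rw [← Finset.sum_add_distrib]
        refine Finset.sum_le_sum fun n _ => ?_
        have h1 := le_abs_self ((X n : ℝ) - (f n : ℝ))
        have h2 := (le_abs_self _).trans (hB n)
        linarith
      have e3 : ∑ n ∈ (range N).filter (fun n => ¬ X n < J), |(X n : ℝ) - (f n : ℝ)| ≤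
          ε / 4 * N :=
        (Finset.sum_le_sum_of_subset_of_nonneg (Finset.filter_subset _ _)
            (fun _ _ _ => abs_nonneg _)).trans hN
      rw [Finset.sum_const, nsmul_eq_mul] at e2
      rw [← sub_div, e1, div_le_iff₀ hNr]
      have e4 : (ε / 4 + B * (1 - (((range N).filter (fun n => X n < J)).card : ℝ) / (N : ℝ))) * N
          = ε / 4 * N + B * (N - (((range N).filter (fun n => X n < J)).card : ℝ)) := by
        field_simp
      rw [e4, e0]
      linarith
    have h5 : Tendsto (fun J : ℕ => B * (1 - ∑ j ∈ range J, d j)) atTop (𝓝 0) := by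
      have := (hsumd.const_sub 1).const_mul B
      simpa using this
    have h6 := h5.eventually_le_const (by positivity : (0 : ℝ) < ε / 4)
    obtain ⟨J0, hJ0⟩ := eventually_atTop.1 h6
    refine ⟨J0, fun J hJ => ?_⟩
    rw [Real.dist_eq, abs_sub_comm, abs_of_nonneg (by linarith [hup J])]
    have := hJ0 J hJ
    have := hlow J
    linarith
  refine ⟨γ, d, hγ, hd, ?_, ?_⟩
  · exact (hasSum_iff_tendsto_nat_of_nonneg hd0 1).2 hsumd
  · exact (hasSum_iff_tendsto_nat_of_nonneg
      (fun j => mul_nonneg (Nat.cast_nonneg j) (hd0 j)) γ).2 hsume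

end Pool.Agent.Y795.SQF
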