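import Pool.Agent.Y795.SQF.LimPer
import Pool.Agent.Helper530.Sq.Fin5b

/-!
# The number of squarefree entries of a row of Pascal's triangle is limit periodic in the mean
-/

set_option autoImplicit false

namespace Pool.Agent.Y795.SQF

open Finset Filter Topology
open Pool.Agent.Helper530.Sq Pool.Agent.Helper530.Sq.SqFAsm

/-- the number of squarefree entries in row `n` of Pascal's triangle -/
noncomputable def XX (n : ℕ) : ℕ := by
  classical
  exact ((range (n + 1)).filter (fun k => Squarefree (n.choose k))).card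

theorem XX_eq (n : ℕ) : XX n = ((range (n + 1)).filter (fun k => Squarefree (n.choose k))).card := by
  unfold XX
  congr!

open scoped Classical in
/-- no prime up to `y` has its square dividing the entry -/
def gk (y k n : ℕ) : Prop := ∀ p ∈ (range (y + 1)).filter Nat.Prime, ¬ p ^ 2 ∣ n.choose k

theorem gk_periodic (y k K : ℕ) (hk : k ≤ K) (n : ℕ) :
    gk y k (n + (y.factorial ^ 2 * K.factorial)) ↔ gk y k n := by
  unfold gk
  refine forall₂_congr fun p hp => ?_
  rw [Finset.mem_filter, Finset.mem_range] at hp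
  rw [dvd_choose_iff, dvd_choose_iff, desc_periodic]
  have h1 : p ∣ y.factorial := Nat.dvd_factorial hp.2.pos (by omega)
  rw [mul_comm]
  exact mul_dvd_mul (pow_dvd_pow_of_dvd h1 2) (Nat.factorial_dvd_factorial hk)

theorem gk_of_sqf (y k n : ℕ) (h : Squarefree (n.choose k)) : gk y k n := by
  intro p hp hdvd
  rw [Finset.mem_filter] at hp
  exact (Nat.squarefree_iff_prime_squarefree.1 h) p hp.2 (by rw [← pow_two]; exact hdvd)

open scoped Classical in
/-- few rows pass the test without being squarefree -/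
theorem gk_diff (y k N : ℕ) (hky : k < y + 1) :
    ((((range N).filter (fun n => gk y k n ∧ ¬ (2 * k < n ∧ Squarefree (n.choose k)))).card : ℕ) : ℝ)
      ≤ (2 * k + 1) + 2 * k * N / (y + 1) := by
  have hsub : (range N).filter (fun n => gk y k n ∧ ¬ (2 * k < n ∧ Squarefree (n.choose k))) ⊆
      (range (2 * k + 1) ∪
        (range N).filter (fun n => ∃ d ∈ Ioo y N, ∃ i < k, i < n ∧ d ^ 2 ∣ n - i)) := by
    intro n hn
    rw [Finset.mem_filter, Finset.mem_range] at hn
    rw [Finset.mem_union]
    by_cases h1 : n < 2 * k + 1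
    · left; exact Finset.mem_range.2 h1
    right
    have h2 : ¬ Squarefree (n.choose k) := fun h => hn.2.2 ⟨by omega, h⟩
    rw [Finset.mem_filter]
    refine ⟨Finset.mem_range.2 hn.1, ?_⟩
    rw [Nat.squarefree_iff_prime_squarefree] at h2
    push Not at h2
    obtain ⟨p, hp, hpd⟩ := h2
    have hpy : y < p := by
      by_contra hcon
      exact hn.2.1 p (by rw [Finset.mem_filter, Finset.mem_range]; exact ⟨by omega, hp⟩)
        (by rw [pow_two]; exact hpd)
    have h3 : p ^ 2 ∣ n.descFactorial k := by
      rw [Nat.descFactorial_eq_factorial_mul_choose, pow_two]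
      exact dvd_mul_of_dvd_right hpd _
    obtain ⟨i, hi, hi2⟩ := one_factor p k n hp (by omega) (by omega) h3
    have hlt : p < N := by
      have h4 := Nat.le_of_dvd (by omega) hi2
      have h5 : p ≤ p ^ 2 := Nat.le_self_pow (by norm_num) p
      omega
    exact ⟨p, Finset.mem_Ioo.2 ⟨hpy, hlt⟩, i, hi, by omega, hi2⟩
  have h1 := (Finset.card_le_card hsub).trans (Finset.card_union_le _ _)
  rw [Finset.card_range] at h1
  have h2 := bad_card y k N
  have h3 : ((((range N).filter
      (fun n => gk y k n ∧ ¬ (2 * k < n ∧ Squarefree (n.choose k)))).card : ℕ) : ℝ) ≤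
      ((2 * (k : ℝ) + 1) + ((((range N).filter
        (fun n => ∃ d ∈ Ioo y N, ∃ i < k, i < n ∧ d ^ 2 ∣ n - i)).card : ℕ) : ℝ)) := by
    exact_mod_cast h1
  linarith

open scoped Classical in
/-- the periodic approximation -/
noncomputable def ff (y K n : ℕ) : ℕ := 2 * ((range K).filter (fun k => gk y k n)).card

open scoped Classical in
theorem ff_periodic (y K n : ℕ) : ff y K (n + (y.factorial ^ 2 * K.factorial)) = ff y K n := by
  unfold ff
  congr 2
  ext k
  rw [Finset.mem_filter, Finset.mem_filter]
  constructor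
  · rintro ⟨a, b⟩
    exact ⟨a, (gk_periodic y k K (Finset.mem_range.1 a).le n).1 b⟩
  · rintro ⟨a, b⟩
    exact ⟨a, (gk_periodic y k K (Finset.mem_range.1 a).le n).2 b⟩

open scoped Classical in
/-- the number of squarefree entries with small `k` -/
noncomputable def AA (K n : ℕ) : ℕ :=
  ((range K).filter (fun k => 2 * k < n ∧ Squarefree (n.choose k))).card

open scoped Classical in
theorem AA_le_ff (y K n : ℕ) : 2 * AA K n ≤ ff y K n ∧
    ff y K n = 2 * AA K n + 2 * ((range K).filter (fun k => gk y k n ∧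
      ¬ (2 * k < n ∧ Squarefree (n.choose k)))).card := by
  have h : ((range K).filter (fun k => gk y k n)).card =
      ((range K).filter (fun k => 2 * k < n ∧ Squarefree (n.choose k))).card +
      ((range K).filter (fun k => gk y k n ∧ ¬ (2 * k < n ∧ Squarefree (n.choose k)))).card := by
    rw [← Finset.card_union_of_disjoint]
    · congr 1
      ext k
      simp only [Finset.mem_filter, Finset.mem_union]
      constructor
      · rintro ⟨a, b⟩
        by_cases h : 2 * k < n ∧ Squarefree (n.choose k)
        · exact Or.inl ⟨a, h⟩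
        · exact Or.inr ⟨a, b, h⟩
      · rintro (⟨a, b⟩ | ⟨a, b, _⟩)
        · exact ⟨a, gk_of_sqf y k n b.2⟩
        · exact ⟨a, b⟩
    · rw [Finset.disjoint_left]
      intro k hk hk2
      rw [Finset.mem_filter] at hk hk2
      exact hk2.2.2 hk.2
  unfold AA ff
  omega

open scoped Classical in
theorem sum_AA (K N : ℕ) : ∑ n ∈ range N, AA K n = ∑ k ∈ range K, ((range N).filter
        (fun n => 2 * k < n ∧ Squarefree (n.choose k))).card := by
  unfold AA
  simp only [Finset.card_filter]
  exact Finset.sum_comm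

open scoped Classical in
theorem AA_le_row (K n : ℕ) : AA K n ≤
    ((range (n + 1)).filter (fun k => 2 * k < n ∧ Squarefree (n.choose k))).card := by
  unfold AA
  apply Finset.card_le_card
  intro k hk
  rw [Finset.mem_filter, Finset.mem_range] at hk ⊢
  exact ⟨by omega, hk.2⟩

theorem XX_limit_periodic : LPN XX := by
  classical
  obtain ⟨C, c, hc, hb⟩ := main_bound
  set r : ℝ := (2 : ℝ) ^ (-c) with hr
  have hr0 : 0 < r := Real.rpow_pos_of_pos (by norm_num) _
  have hr1 : r < 1 := Real.rpow_lt_one_of_one_lt_of_neg (by norm_num) (by linarith)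
  set D : ℝ := 2 * C / (1 - r) with hD
  intro ε hε
  obtain ⟨i, hi⟩ : ∃ i : ℕ, 3 * D * r ^ i ≤ ε / 4 := by
    have h1 : Tendsto (fun i : ℕ => 3 * D * r ^ i) atTop (𝓝 (3 * D * 0)) :=
      (tendsto_pow_atTop_nhds_zero_of_lt_one hr0.le hr1).const_mul _
    rw [mul_zero] at h1
    exact (h1.eventually_le_const (by positivity : (0 : ℝ) < ε / 4)).exists
  set K : ℕ := 2 ^ i with hK
  obtain ⟨y, hy⟩ : ∃ y : ℕ, K ≤ y ∧ (K : ℝ) * (4 * K / (y + 1)) ≤ ε / 4 := by
    obtain ⟨m, hm⟩ := exists_nat_gt (16 * (K : ℝ) * K / ε)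
    refine ⟨max m K, by omega, ?_⟩
    have h1 : (m : ℝ) ≤ (max m K : ℕ) := by exact_mod_cast le_max_left m K
    rw [div_lt_iff₀ hε] at hm
    rw [mul_div_assoc', div_le_iff₀ (by positivity)]
    nlinarith
  refine ⟨y.factorial ^ 2 * K.factorial, ff y K, by positivity, ff_periodic y K, ?_⟩
  filter_upwards [ev_div_le ((K : ℝ) + K * (4 * K + 2)) (ε / 2) (by positivity),
    eventually_gt_atTop 0] with N hN hN0
  have hNr : (0 : ℝ) < N := by exact_mod_cast hN0
  have hq := QQ_card C c hc hb N i hN0
  rw [← hr, ← hD] at hq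
  obtain ⟨s1, s2⟩ := sum_lt N i
  have s3 := sum_eq_le N i
  -- pointwise
  have hpt : ∀ n, |(XX n : ℝ) - (ff y K n : ℝ)| ≤ ((XX n : ℝ) - 2 * AA K n) +
      2 * (((range K).filter (fun k => gk y k n ∧
      ¬ (2 * k < n ∧ Squarefree (n.choose k)))).card : ℝ) := by
    intro n
    have h1 : 2 * AA K n ≤ XX n := by
      rw [XX_eq, row_split]
      have := AA_le_row K n
      convert (by omega : 2 * AA K n ≤
        2 * ((range (n + 1)).filter (fun k => 2 * k < n ∧ Squarefree (n.choose k))).card +
        ((range (n + 1)).filter (fun k => 2 * k = n ∧ Squarefree (n.choose k))).card)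
    have h2 := (AA_le_ff y K n).2
    have h1' : 2 * (AA K n : ℝ) ≤ XX n := by exact_mod_cast h1
    have h2' : (ff y K n : ℝ) = 2 * AA K n + 2 * (((range K).filter (fun k => gk y k n ∧
      ¬ (2 * k < n ∧ Squarefree (n.choose k)))).card : ℝ) := by exact_mod_cast h2
    have h3 : (0 : ℝ) ≤ (((range K).filter (fun k => gk y k n ∧
      ¬ (2 * k < n ∧ Squarefree (n.choose k)))).card : ℝ) := Nat.cast_nonneg _
    rw [abs_le]
    constructor <;> linarith
  refine (Finset.sum_le_sum fun n _ => hpt n).trans ?_
  rw [Finset.sum_add_distrib, Finset.sum_sub_distrib, ← Finset.mul_sum, ← Finset.mul_sum]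
  -- first part
  have s4 : (∑ n ∈ range N, XX n) =
      2 * (∑ n ∈ range N, ((range (n + 1)).filter
        (fun k => 2 * k < n ∧ Squarefree (n.choose k))).card) +
      (∑ n ∈ range N, ((range (n + 1)).filter
        (fun k => 2 * k = n ∧ Squarefree (n.choose k))).card) := by
    rw [Finset.mul_sum, ← Finset.sum_add_distrib]
    refine Finset.sum_congr rfl fun n _ => ?_
    rw [XX_eq]
    exact row_split n
  have p1 : ((∑ n ∈ range N, (XX n : ℝ)) - 2 * ∑ n ∈ range N, (AA K n : ℝ)) ≤
      K + 3 * (QQ N i).card := by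
    have e1 : (∑ n ∈ range N, AA K n) = ∑ k ∈ range (2 ^ i), ((range N).filter
        (fun n => 2 * k < n ∧ Squarefree (n.choose k))).card := sum_AA K N
    have e1' : (∑ n ∈ range N, ((range (n + 1)).filter
      (fun k => 2 * k < n ∧ Squarefree (n.choose k))).card) ≤ (∑ n ∈ range N, AA K n) +
        (QQ N i).card := by
      rw [e1]
      convert s1
    have e2 : (∑ n ∈ range N, XX n) ≤ 2 * (∑ n ∈ range N, AA K n) + (K + 3 * (QQ N i).card) := by
      rw [s4]
      have s3' : (∑ n ∈ range N, ((range (n + 1)).filter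
        (fun k => 2 * k = n ∧ Squarefree (n.choose k))).card) ≤ K + (QQ N i).card := by
        rw [hK]
        convert s3
      omega
    have e3 : (∑ n ∈ range N, (XX n : ℝ)) ≤
        2 * (∑ n ∈ range N, (AA K n : ℝ)) + (K + 3 * (QQ N i).card) := by exact_mod_cast e2
    linarith
  -- second part
  have p2 : ∑ n ∈ range N, (((range K).filter (fun k => gk y k n ∧
      ¬ (2 * k < n ∧ Squarefree (n.choose k)))).card : ℝ) ≤
      K * ((2 * K + 1) + 2 * K * N / (y + 1)) := by
    have e1 : ∑ n ∈ range N, ((range K).filter (fun k => gk y k n ∧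
      ¬ (2 * k < n ∧ Squarefree (n.choose k)))).card = ∑ k ∈ range K,
        ((range N).filter (fun n => gk y k n ∧
          ¬ (2 * k < n ∧ Squarefree (n.choose k)))).card := by
      simp only [Finset.card_filter]
      exact Finset.sum_comm
    have e2 : ∑ n ∈ range N, (((range K).filter (fun k => gk y k n ∧
      ¬ (2 * k < n ∧ Squarefree (n.choose k)))).card : ℝ) = ∑ k ∈ range K,
        (((range N).filter (fun n => gk y k n ∧
          ¬ (2 * k < n ∧ Squarefree (n.choose k)))).card : ℝ) := by exact_mod_cast e1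
    rw [e2]
    have e3 := Finset.sum_le_card_nsmul (range K) (fun k => (((range N).filter
        (fun n => gk y k n ∧ ¬ (2 * k < n ∧ Squarefree (n.choose k)))).card : ℝ))
        ((2 * K + 1) + 2 * K * N / (y + 1)) (by
      intro k hk
      have hk' := Finset.mem_range.1 hk
      refine (gk_diff y k N (by omega)).trans ?_
      have hkr : (k : ℝ) ≤ K := by exact_mod_cast hk'.le
      gcongr)
    rw [Finset.card_range, nsmul_eq_mul] at e3
    exact e3
  have hyN : (K : ℝ) * (4 * K * N / (y + 1)) ≤ ε / 4 * N := by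
    calc (K : ℝ) * (4 * K * N / (y + 1)) = ((K : ℝ) * (4 * K / (y + 1))) * N := by ring
      _ ≤ ε / 4 * N := mul_le_mul_of_nonneg_right hy.2 hNr.le
  rw [div_le_iff₀ hNr] at hN
  have t5 : 3 * (D * N * r ^ i) ≤ ε / 4 * N := by
    calc 3 * (D * N * r ^ i) = (3 * D * r ^ i) * N := by ring
      _ ≤ ε / 4 * N := by gcongr
  have t6 : (K : ℝ) * (4 * K * N / (y + 1)) = 2 * (K * (2 * K * N / (y + 1))) := by ring
  nlinarith

theorem XX_pos (n : ℕ) : 1 ≤ XX n := by
  rw [XX_eq, Nat.one_le_iff_ne_zero, Finset.card_ne_zero]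
  exact ⟨0, by rw [Finset.mem_filter]; exact ⟨by simp, by simp⟩⟩

/-- the mean over a residue class is positive -/
theorem ap_pos (q a : ℕ) (hq : 0 < q) : ∃ γ' : ℝ, 0 < γ' ∧ Tendsto (fun N : ℕ =>
    (∑ n ∈ (range N).filter (fun n => n % q = a % q), (XX n : ℝ)) / (N : ℝ)) atTop (𝓝 γ') := by
  obtain ⟨l, hl⟩ := (XX_limit_periodic.ap q a hq).mean
  have e1 : ∀ N : ℕ, ∑ n ∈ range N, (if n % q = a % q then (XX n : ℝ) else 0) =
      ∑ n ∈ (range N).filter (fun n => n % q = a % q), (XX n : ℝ) := fun N => by
    rw [Finset.sum_filter]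
  simp only [e1] at hl
  refine ⟨l, ?_, hl⟩
  have hsub : Tendsto (fun M : ℕ => M * q) atTop atTop := tendsto_id.atTop_mul_const' hq
  have h2 := hl.comp hsub
  have h3 : (1 : ℝ) / q ≤ l := by
    refine ge_of_tendsto h2 ?_
    filter_upwards [eventually_gt_atTop 0] with M hM
    have hMr : (0 : ℝ) < M := by exact_mod_cast hM
    have hqr : (0 : ℝ) < q := by exact_mod_cast hq
    simp only [Function.comp]
    have h4 : M ≤ ((range (M * q)).filter (fun n => n % q = a % q)).card := by
      have h5 : (range M).image (fun t => t * q + a % q) ⊆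
          (range (M * q)).filter (fun n => n % q = a % q) := by
        intro x hx
        rw [Finset.mem_image] at hx
        obtain ⟨t, ht, rfl⟩ := hx
        rw [Finset.mem_range] at ht
        rw [Finset.mem_filter, Finset.mem_range]
        have h6 : a % q < q := Nat.mod_lt _ hq
        refine ⟨?_, ?_⟩
        · calc t * q + a % q < t * q + q := by omega
            _ = (t + 1) * q := by ring
            _ ≤ M * q := Nat.mul_le_mul_right q ht
        · rw [Nat.add_comm, Nat.add_mul_mod_self_right, Nat.mod_mod]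
      have h7 := Finset.card_le_card h5
      rw [Finset.card_image_of_injective _ (by
        intro s t hst
        have : s * q = t * q := by simpa using hst
        exact Nat.eq_of_mul_eq_mul_right hq this), Finset.card_range] at h7
      exact h7
    have h5 : (M : ℝ) ≤ ∑ n ∈ (range (M * q)).filter (fun n => n % q = a % q), (XX n : ℝ) := by
      calc (M : ℝ) ≤ (((range (M * q)).filter (fun n => n % q = a % q)).card : ℝ) := by
            exact_mod_cast h4
        _ = ∑ n ∈ (range (M * q)).filter (fun n => n % q = a % q), (1 : ℝ) := by simp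
        _ ≤ _ := Finset.sum_le_sum fun n _ => by exact_mod_cast XX_pos n
    push_cast
    rw [div_le_div_iff₀ hqr (by positivity)]
    nlinarith
  have : (0 : ℝ) < 1 / q := by
    have hqr : (0 : ℝ) < q := by exact_mod_cast hq
    positivity
  linarith

end Pool.Agent.Y795.SQF
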