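import Pool.Agent.Y795.SQF.Main

/-!
# A rate of convergence for the number of squarefree entries
-/

set_option autoImplicit false

namespace Pool.Agent.Y795.SQF

open Finset Filter Topology
open Pool.Agent.Helper530.Sq Pool.Agent.Helper530.Sq.SqFAsm

theorem quant : ∃ D r : ℝ, 0 ≤ D ∧ 1 / 2 ≤ r ∧ r < 1 ∧ ∀ y i N : ℕ, 2 ^ i ≤ y → 1 ≤ N →
    ∑ n ∈ range N, |(XX n : ℝ) - (ff y (2 ^ i) n : ℝ)| ≤
      ((2 ^ i : ℕ) + (2 ^ i : ℕ) * (4 * (2 ^ i : ℕ) + 2)) +
      (4 * ((2 ^ i : ℕ) : ℝ) * (2 ^ i : ℕ) / (y + 1) + D * r ^ i) * N := by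
  classical
  obtain ⟨C, c', hc', hb'⟩ := main_bound
  -- make the exponent at most one
  set c : ℝ := min c' 1 with hcc
  have hc : 0 < c := lt_min hc' one_pos
  have hC0 : 0 ≤ C := by
    have h1 := hb' 1 1 le_rfl le_rfl
    have h2 : (0 : ℝ) ≤ ((badBox 1 1).card : ℝ) := Nat.cast_nonneg _
    simp at h1
    linarith
  have hb : ∀ N K : ℕ, 1 ≤ N → 1 ≤ K → ((badBox N K).card : ℝ) ≤ C * N * (K : ℝ) ^ (-c) := by
    intro N K hN hK
    refine (hb' N K hN hK).trans ?_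
    have hK1 : (1 : ℝ) ≤ K := by exact_mod_cast hK
    have h1 : (K : ℝ) ^ (-c') ≤ (K : ℝ) ^ (-c) :=
      Real.rpow_le_rpow_of_exponent_le hK1 (by linarith [min_le_left c' 1])
    have h2 : 0 ≤ C * N := by positivity
    exact mul_le_mul_of_nonneg_left h1 h2
  set r : ℝ := (2 : ℝ) ^ (-c) with hr
  have hr0 : 0 < r := Real.rpow_pos_of_pos (by norm_num) _
  have hr1 : r < 1 := Real.rpow_lt_one_of_one_lt_of_neg (by norm_num) (by linarith)
  have hr2 : 1 / 2 ≤ r := by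
    have h1 : (2 : ℝ) ^ (-1 : ℝ) ≤ (2 : ℝ) ^ (-c) :=
      Real.rpow_le_rpow_of_exponent_le (by norm_num) (by linarith [min_le_right c' 1])
    rw [Real.rpow_neg_one] at h1
    rw [hr]
    linarith
  set D : ℝ := 2 * C / (1 - r) with hD
  have hD0 : 0 ≤ D := div_nonneg (by linarith) (by linarith)
  refine ⟨3 * D, r, by linarith, hr2, hr1, ?_⟩
  intro y i N hy hN0
  set K : ℕ := 2 ^ i with hK
  have hNr : (0 : ℝ) < N := by exact_mod_cast hN0
  have hq := QQ_card C c hc hb N i hN0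
  rw [← hr, ← hD] at hq
  obtain ⟨s1, s2⟩ := sum_lt N i
  have s3 := sum_eq_le N i
  -- pointwise
  have hpt : ∀ n, |(XX n : ℝ) - (ff y K n : ℝ)| ≤ ((XX n : ℝ) - 2 * AA K n) +
      2 * (((range K).filter (fun k => gk y k n ∧
      ¬ (2 * k < n ∧ Squarefree (n.choose k)))).card : ℝ) := by
    intro n
    have h1 : 2 * AA K n ≤ XX n := by
      rw [XX_eq, row_split]
      have := AA_le_row K n
      convert (by omega : 2 * AA K n ≤
        2 * ((range (n + 1)).filter (fun k => 2 * k < n ∧ Squarefree (n.choose k))).card +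
        ((range (n + 1)).filter (fun k => 2 * k = n ∧ Squarefree (n.choose k))).card)
    have h2 := (AA_le_ff y K n).2
    have h1' : 2 * (AA K n : ℝ) ≤ XX n := by exact_mod_cast h1
    have h2' : (ff y K n : ℝ) = 2 * AA K n + 2 * (((range K).filter (fun k => gk y k n ∧
      ¬ (2 * k < n ∧ Squarefree (n.choose k)))).card : ℝ) := by exact_mod_cast h2
    have h3 : (0 : ℝ) ≤ (((range K).filter (fun k => gk y k n ∧
      ¬ (2 * k < n ∧ Squarefree (n.choose k)))).card : ℝ) := Nat.cast_nonneg _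
    rw [abs_le]
    constructor <;> linarith
  refine (Finset.sum_le_sum fun n _ => hpt n).trans ?_
  rw [Finset.sum_add_distrib, Finset.sum_sub_distrib, ← Finset.mul_sum, ← Finset.mul_sum]
  -- first part
  have s4 : (∑ n ∈ range N, XX n) =
      2 * (∑ n ∈ range N, ((range (n + 1)).filter
        (fun k => 2 * k < n ∧ Squarefree (n.choose k))).card) +
      (∑ n ∈ range N, ((range (n + 1)).filter
        (fun k => 2 * k = n ∧ Squarefree (n.choose k))).card) := by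
    rw [Finset.mul_sum, ← Finset.sum_add_distrib]
    refine Finset.sum_congr rfl fun n _ => ?_
    rw [XX_eq]
    exact row_split n
  have p1 : ((∑ n ∈ range N, (XX n : ℝ)) - 2 * ∑ n ∈ range N, (AA K n : ℝ)) ≤
      K + 3 * (QQ N i).card := by
    have e1 : (∑ n ∈ range N, AA K n) = ∑ k ∈ range (2 ^ i), ((range N).filter
        (fun n => 2 * k < n ∧ Squarefree (n.choose k))).card := sum_AA K N
    have e1' : (∑ n ∈ range N, ((range (n + 1)).filter
      (fun k => 2 * k < n ∧ Squarefree (n.choose k))).card) ≤ (∑ n ∈ range N, AA K n) +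
        (QQ N i).card := by
      rw [e1]
      convert s1
    have e2 : (∑ n ∈ range N, XX n) ≤ 2 * (∑ n ∈ range N, AA K n) + (K + 3 * (QQ N i).card) := by
      rw [s4]
      have s3' : (∑ n ∈ range N, ((range (n + 1)).filter
        (fun k => 2 * k = n ∧ Squarefree (n.choose k))).card) ≤ K + (QQ N i).card := by
        rw [hK]
        convert s3
      omega
    have e3 : (∑ n ∈ range N, (XX n : ℝ)) ≤
        2 * (∑ n ∈ range N, (AA K n : ℝ)) + (K + 3 * (QQ N i).card) := by exact_mod_cast e2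
    linarith
  -- second part
  have p2 : ∑ n ∈ range N, (((range K).filter (fun k => gk y k n ∧
      ¬ (2 * k < n ∧ Squarefree (n.choose k)))).card : ℝ) ≤
      K * ((2 * K + 1) + 2 * K * N / (y + 1)) := by
    have e1 : ∑ n ∈ range N, ((range K).filter (fun k => gk y k n ∧
      ¬ (2 * k < n ∧ Squarefree (n.choose k)))).card = ∑ k ∈ range K,
        ((range N).filter (fun n => gk y k n ∧
          ¬ (2 * k < n ∧ Squarefree (n.choose k)))).card := by
      simp only [Finset.card_filter]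
      exact Finset.sum_comm
    have e2 : ∑ n ∈ range N, (((range K).filter (fun k => gk y k n ∧
      ¬ (2 * k < n ∧ Squarefree (n.choose k)))).card : ℝ) = ∑ k ∈ range K,
        (((range N).filter (fun n => gk y k n ∧
          ¬ (2 * k < n ∧ Squarefree (n.choose k)))).card : ℝ) := by exact_mod_cast e1
    rw [e2]
    have e3 := Finset.sum_le_card_nsmul (range K) (fun k => (((range N).filter
        (fun n => gk y k n ∧ ¬ (2 * k < n ∧ Squarefree (n.choose k)))).card : ℝ))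
        ((2 * K + 1) + 2 * K * N / (y + 1)) (by
      intro k hk
      have hk' := Finset.mem_range.1 hk
      refine (gk_diff y k N (by omega)).trans ?_
      have hkr : (k : ℝ) ≤ K := by exact_mod_cast hk'.le
      gcongr)
    rw [Finset.card_range, nsmul_eq_mul] at e3
    exact e3
  have t6 : 4 * (K : ℝ) * K / (y + 1) * N = 2 * (K * (2 * K * N / (y + 1))) := by ring
  have t7 : (4 * (K : ℝ) * K / (y + 1) + 3 * D * r ^ i) * N =
      2 * (K * (2 * K * N / (y + 1))) + 3 * (D * N * r ^ i) := by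
    rw [add_mul, t6]; ring
  rw [t7]
  nlinarith

theorem ff_le (y K n : ℕ) : ff y K n ≤ 2 * K := by
  classical
  unfold ff
  have := Finset.card_filter_le (range K) (fun k => gk y k n)
  rw [Finset.card_range] at this
  omega

/-- the sums of a bounded periodic function -/
theorem periodic_sum (f : ℕ → ℝ) (P : ℕ) (B : ℝ) (hP : 0 < P) (hf : ∀ n, f (n + P) = f n)
    (h0 : ∀ n, 0 ≤ f n) (hB : ∀ n, f n ≤ B) :
    ∃ l : ℝ, ∀ N : ℕ, |∑ n ∈ range N, f n - l * N| ≤ B * P := by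
  set l : ℝ := (∑ n ∈ range P, f n) / P with hl
  have hPr : (P : ℝ) ≠ 0 := by exact_mod_cast hP.ne'
  have hPp : (0 : ℝ) < P := by exact_mod_cast hP
  have hl0 : 0 ≤ l := div_nonneg (Finset.sum_nonneg fun n _ => h0 n) hPp.le
  have hlB : l ≤ B := by
    rw [hl, div_le_iff₀ hPp]
    have := Finset.sum_le_card_nsmul (range P) f B (fun n _ => hB n)
    rw [Finset.card_range, nsmul_eq_mul] at this
    linarith
  have hB0 : 0 ≤ B := hl0.trans hlB
  have hper : Function.Periodic (fun N : ℕ => (∑ n ∈ range N, f n) - l * N) P := by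
    intro N
    have e1 : ∑ n ∈ range (N + P), f n = ∑ n ∈ range P, f n + ∑ n ∈ range N, f n := by
      rw [Nat.add_comm N P, Finset.sum_range_add]
      congr 1
      refine Finset.sum_congr rfl fun n _ => ?_
      rw [Nat.add_comm]
      exact hf n
    show (∑ n ∈ range (N + P), f n) - l * ((N + P : ℕ) : ℝ) = (∑ n ∈ range N, f n) - l * N
    rw [e1]
    push_cast
    have e2 : l * P = ∑ n ∈ range P, f n := by rw [hl]; field_simp
    linear_combination -e2
  refine ⟨l, fun N => ?_⟩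
  have h1 := hper.map_mod_nat N
  rw [← h1]
  set M := N % P
  have hM : M < P := Nat.mod_lt _ hP
  have hMr : (M : ℝ) ≤ P := by exact_mod_cast hM.le
  have hM0 : (0 : ℝ) ≤ M := Nat.cast_nonneg _
  have a1 : 0 ≤ ∑ n ∈ range M, f n := Finset.sum_nonneg fun n _ => h0 n
  have a2 : ∑ n ∈ range M, f n ≤ B * P := by
    have := Finset.sum_le_card_nsmul (range M) f B (fun n _ => hB n)
    rw [Finset.card_range, nsmul_eq_mul] at this
    nlinarith
  have a3 : 0 ≤ l * M := mul_nonneg hl0 hM0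
  have a4 : l * M ≤ B * P := mul_le_mul hlB hMr hM0 hB0
  rw [abs_le]
  constructor <;> linarith

/-- the error in terms of the two parameters -/
theorem error_bound (γ : ℝ)
    (hγ : Tendsto (fun N : ℕ => (∑ n ∈ range N, (XX n : ℝ)) / (N : ℝ)) atTop (𝓝 γ)) :
    ∃ D r : ℝ, 0 ≤ D ∧ 1 / 2 ≤ r ∧ r < 1 ∧ ∀ y i N : ℕ, 2 ^ i ≤ y → 1 ≤ N →
    |∑ n ∈ range N, (XX n : ℝ) - γ * N| ≤
      ((2 ^ i : ℕ) + (2 ^ i : ℕ) * (4 * (2 ^ i : ℕ) + 2)) +
      2 * (4 * ((2 ^ i : ℕ) : ℝ) * (2 ^ i : ℕ) / (y + 1) + D * r ^ i) * N +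
      2 * (2 ^ i : ℕ) * ((y.factorial ^ 2 * (2 ^ i).factorial : ℕ) : ℝ) := by
  obtain ⟨D, r, hD, hr, hr1, hq⟩ := quant
  refine ⟨D, r, hD, hr, hr1, ?_⟩
  intro y i N hy hN
  set K : ℕ := 2 ^ i with hK
  set E : ℝ := 4 * (K : ℝ) * K / (y + 1) + D * r ^ i with hE
  set P : ℕ := y.factorial ^ 2 * K.factorial with hP
  have hP0 : 0 < P := by positivity
  obtain ⟨l, hl⟩ := periodic_sum (fun n => (ff y K n : ℝ)) P (2 * K) hP0
    (fun n => by simp only [hP, ff_periodic y K n]) (fun n => Nat.cast_nonneg _)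
    (fun n => by exact_mod_cast ff_le y K n)
  -- the mean of the periodic function
  have hlim : |γ - l| ≤ E := by
    have h1 : Tendsto (fun N : ℕ => (∑ n ∈ range N, (XX n : ℝ)) / (N : ℝ) - l) atTop
        (𝓝 (γ - l)) := hγ.sub_const l
    have h2 := h1.abs
    have h3 : Tendsto (fun N : ℕ => ((K : ℝ) + K * (4 * K + 2) + 2 * K * P) / (N : ℝ) + E) atTop
        (𝓝 (0 + E)) := (tendsto_const_div_atTop_nhds_zero_nat _).add_const E
    rw [zero_add] at h3
    refine le_of_tendsto_of_tendsto h2 h3 ?_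
    filter_upwards [eventually_ge_atTop 1] with M hM
    have hMr : (0 : ℝ) < M := by exact_mod_cast hM
    have e1 : (∑ n ∈ range M, (XX n : ℝ)) / (M : ℝ) - l =
        ((∑ n ∈ range M, (XX n : ℝ)) - l * M) / M := by field_simp
    have e2 : ((K : ℝ) + K * (4 * K + 2) + 2 * K * P) / (M : ℝ) + E =
        ((K : ℝ) + K * (4 * K + 2) + 2 * K * P + E * M) / M := by field_simp
    rw [e1, e2, abs_div, abs_of_pos hMr]
    apply div_le_div_of_nonneg_right _ hMr.le
    have g1 := hq y i M hy hM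
    have g2 := hl M
    have g3 : |∑ n ∈ range M, (XX n : ℝ) - ∑ n ∈ range M, (ff y K n : ℝ)| ≤
        ∑ n ∈ range M, |(XX n : ℝ) - (ff y K n : ℝ)| := by
      rw [← Finset.sum_sub_distrib]
      exact Finset.abs_sum_le_sum_abs _ _
    have g4 := abs_sub_le (∑ n ∈ range M, (XX n : ℝ)) (∑ n ∈ range M, (ff y K n : ℝ)) (l * M)
    linarith
  have g1 := hq y i N hy hN
  have g2 := hl N
  have g3 : |∑ n ∈ range N, (XX n : ℝ) - ∑ n ∈ range N, (ff y K n : ℝ)| ≤
      ∑ n ∈ range N, |(XX n : ℝ) - (ff y K n : ℝ)| := by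
    rw [← Finset.sum_sub_distrib]
    exact Finset.abs_sum_le_sum_abs _ _
  have g4 := abs_sub_le (∑ n ∈ range N, (XX n : ℝ)) (∑ n ∈ range N, (ff y K n : ℝ)) (γ * N)
  have g5 := abs_sub_le (∑ n ∈ range N, (ff y K n : ℝ)) (l * N) (γ * N)
  have g6 : |l * N - γ * N| ≤ E * N := by
    rw [← sub_mul, abs_mul, abs_sub_comm, abs_of_nonneg (Nat.cast_nonneg N : (0 : ℝ) ≤ N)]
    exact mul_le_mul_of_nonneg_right hlim (Nat.cast_nonneg N)
  linarith

/-- choice of the parameters -/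
theorem rate (γ : ℝ)
    (hγ : Tendsto (fun N : ℕ => (∑ n ∈ range N, (XX n : ℝ)) / (N : ℝ)) atTop (𝓝 γ)) :
    ∃ η C : ℝ, 0 < η ∧ ∀ᶠ N : ℕ in atTop,
      |∑ n ∈ range N, (XX n : ℝ) - γ * N| ≤ C * N * (Real.log N) ^ (-η) := by
  obtain ⟨D, r, hD, hr, hr1, hq⟩ := error_bound γ hγ
  have hr0 : 0 < r := by linarith
  -- exponent
  set η : ℝ := - Real.log r / Real.log 16 with hη
  have hlog16 : 0 < Real.log 16 := Real.log_pos (by norm_num)
  have hlogr : Real.log r < 0 := Real.log_neg hr0 hr1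
  have hη0 : 0 < η := div_pos (by linarith) hlog16
  have hr16 : r = (16 : ℝ) ^ (-η) := by
    rw [Real.rpow_def_of_pos (by norm_num)]
    have : Real.log 16 * -η = Real.log r := by rw [hη]; field_simp
    rw [this, Real.exp_log hr0]
  refine ⟨η, (22 : ℝ) ^ η * (17 + 2 * D) / r, hη0, ?_⟩
  filter_upwards [eventually_ge_atTop (2 ^ 22)] with N hN
  have hN1 : 1 ≤ N := le_trans Nat.one_le_two_pow hN
  have hNr : (0 : ℝ) < N := by exact_mod_cast hN1
  set L : ℕ := Nat.log 2 N with hL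
  have hL22 : 22 ≤ L := Nat.le_log_of_pow_le (by norm_num) hN
  set i : ℕ := Nat.log 16 (L / 22) with hi
  have hi1 : 16 ^ i ≤ L / 22 := Nat.pow_log_le_self 16 (by omega)
  have hi2 : L / 22 < 16 ^ (i + 1) := Nat.lt_pow_succ_log_self (by norm_num) _
  have hi3 : 22 * 16 ^ i ≤ L := by omega
  have hi4 : L < 22 * 16 ^ (i + 1) := by omega
  have h2L : 2 ^ L ≤ N := Nat.pow_log_le_self 2 (by omega)
  have hNL : N < 2 ^ (L + 1) := Nat.lt_pow_succ_log_self (by norm_num) _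
  have hN22 : 2 ^ (22 * 16 ^ i) ≤ N := (Nat.pow_le_pow_right (by norm_num) hi3).trans h2L
  -- sizes
  set K : ℕ := 2 ^ i with hK
  set y : ℕ := 2 ^ (3 * i) with hy
  have hKy : 2 ^ i ≤ y := Nat.pow_le_pow_right (by norm_num) (by omega)
  have hi5 : i < 2 ^ i := Nat.lt_two_pow_self
  have h16 : 16 ^ i = 2 ^ (3 * i) * 2 ^ i := by
    rw [← pow_add, show 3 * i + i = 4 * i by ring, pow_mul]; norm_num
  have hfac : y.factorial ≤ 2 ^ (3 * 16 ^ i) := by
    calc y.factorial ≤ y ^ y := Nat.factorial_le_pow y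
      _ = 2 ^ (3 * i * 2 ^ (3 * i)) := by rw [hy, ← pow_mul]
      _ ≤ 2 ^ (3 * 16 ^ i) := by
        apply Nat.pow_le_pow_right (by norm_num)
        rw [h16]
        calc 3 * i * 2 ^ (3 * i) ≤ 3 * 2 ^ i * 2 ^ (3 * i) := by gcongr
          _ = 3 * (2 ^ (3 * i) * 2 ^ i) := by ring
  have hP : y.factorial ^ 2 * K.factorial ≤ 2 ^ (9 * 16 ^ i) := by
    have h1 : K.factorial ≤ y.factorial := Nat.factorial_le hKy
    calc y.factorial ^ 2 * K.factorial ≤ (2 ^ (3 * 16 ^ i)) ^ 2 * 2 ^ (3 * 16 ^ i) := by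
          gcongr
          exact h1.trans hfac
      _ = 2 ^ (9 * 16 ^ i) := by
          rw [← pow_mul, ← pow_add]; congr 1; ring
  have h1i : 1 ≤ 16 ^ i := Nat.one_le_pow _ _ (by norm_num)
  have hi6 : i ≤ 16 ^ i := hi5.le.trans (Nat.pow_le_pow_left (by norm_num) i)
  have hsmall : (K + K * (4 * K + 2) + 2 * K * (y.factorial ^ 2 * K.factorial)) * 2 ^ i ≤
      9 * N := by
    have a1 : K + K * (4 * K + 2) ≤ 7 * 2 ^ (2 * 16 ^ i) := by
      have b1 : K ≤ 2 ^ (2 * 16 ^ i) := by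
        rw [hK]; exact Nat.pow_le_pow_right (by norm_num) (by omega)
      have b2 : K * K ≤ 2 ^ (2 * 16 ^ i) := by
        rw [hK, ← pow_add]; exact Nat.pow_le_pow_right (by norm_num) (by omega)
      nlinarith
    have a2 : 2 * K * (y.factorial ^ 2 * K.factorial) ≤ 2 * 2 ^ (10 * 16 ^ i) := by
      calc 2 * K * (y.factorial ^ 2 * K.factorial) ≤ 2 * 2 ^ (16 ^ i) * 2 ^ (9 * 16 ^ i) := by
            gcongr
            rw [hK]; exact Nat.pow_le_pow_right (by norm_num) hi6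
        _ = 2 * 2 ^ (10 * 16 ^ i) := by
            rw [mul_assoc, ← pow_add]; congr 2; ring
    have a3 : 2 ^ (2 * 16 ^ i) ≤ 2 ^ (10 * 16 ^ i) :=
      Nat.pow_le_pow_right (by norm_num) (by omega)
    have a4 : 2 ^ i ≤ 2 ^ (12 * 16 ^ i) := Nat.pow_le_pow_right (by norm_num) (by omega)
    calc (K + K * (4 * K + 2) + 2 * K * (y.factorial ^ 2 * K.factorial)) * 2 ^ i
        ≤ (9 * 2 ^ (10 * 16 ^ i)) * 2 ^ (12 * 16 ^ i) := by
          apply Nat.mul_le_mul _ a4
          omega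
      _ = 9 * 2 ^ (22 * 16 ^ i) := by
          rw [mul_assoc, ← pow_add]; congr 2; ring
      _ ≤ 9 * N := Nat.mul_le_mul_left 9 hN22
  have hsmall' : ((K : ℝ) + K * (4 * K + 2)) +
      2 * K * ((y.factorial ^ 2 * K.factorial : ℕ) : ℝ) ≤ 9 * N * (1 / 2) ^ i := by
    have h1 : ((K : ℝ) + K * (4 * K + 2) +
      2 * K * ((y.factorial ^ 2 * K.factorial : ℕ) : ℝ)) * 2 ^ i ≤ 9 * N := by
      exact_mod_cast hsmall
    have h2 : (0 : ℝ) < 2 ^ i := by positivity
    rw [one_div, inv_pow, ← div_eq_mul_inv, le_div_iff₀ h2]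
    exact h1
  have hhalf : ((1 : ℝ) / 2) ^ i ≤ r ^ i := pow_le_pow_left₀ (by norm_num) hr i
  have hKK : 4 * (K : ℝ) * K / (y + 1) ≤ 4 * (1 / 2) ^ i := by
    have h2 : (0 : ℝ) < 2 ^ i := by positivity
    rw [div_le_iff₀ (by positivity)]
    have h3 : (y : ℝ) = 2 ^ i * 2 ^ i * 2 ^ i := by
      rw [hy]; push_cast; rw [← pow_add, ← pow_add]; congr 1; ring
    have h4 : (K : ℝ) = 2 ^ i := by rw [hK]; push_cast; rfl
    rw [h3, h4, one_div, inv_pow]
    have h5 : 4 * ((2 : ℝ) ^ i)⁻¹ * (2 ^ i * 2 ^ i * 2 ^ i + 1) =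
        4 * 2 ^ i * 2 ^ i + 4 * ((2 : ℝ) ^ i)⁻¹ := by
      field_simp
    rw [h5]
    have : (0 : ℝ) ≤ 4 * ((2 : ℝ) ^ i)⁻¹ := by positivity
    linarith
  have hmain := hq y i N hKy hN1
  have hfin : |∑ n ∈ range N, (XX n : ℝ) - γ * N| ≤ (17 + 2 * D) * N * r ^ i := by
    have e1 : 9 * (N : ℝ) * (1 / 2) ^ i ≤ 9 * N * r ^ i :=
      mul_le_mul_of_nonneg_left hhalf (by positivity)
    have e2 : 4 * (K : ℝ) * K / (y + 1) + D * r ^ i ≤ (4 + D) * r ^ i := by
      have : 4 * (1 / 2 : ℝ) ^ i ≤ 4 * r ^ i := mul_le_mul_of_nonneg_left hhalf (by norm_num)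
      linarith
    have e3 : 2 * (4 * (K : ℝ) * K / (y + 1) + D * r ^ i) * N ≤ 2 * ((4 + D) * r ^ i) * N := by
      gcongr
    have e4 : ((K : ℝ) + K * (4 * K + 2)) +
      2 * (4 * (K : ℝ) * K / (y + 1) + D * r ^ i) * N +
      2 * K * ((y.factorial ^ 2 * K.factorial : ℕ) : ℝ) ≤ (17 + 2 * D) * N * r ^ i := by
      linarith
    exact hmain.trans e4
  -- compare `r ^ i` with the logarithm
  have hlogN : 0 < Real.log N := Real.log_pos (by
    have : (2 ^ 22 : ℕ) ≤ N := hN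
    have h3 : (1 : ℕ) < N := lt_of_lt_of_le (by norm_num) this
    exact_mod_cast h3)
  have hlogN2 : Real.log N ≤ 22 * 16 ^ (i + 1) := by
    have h3 : (N : ℝ) ≤ 2 ^ (22 * 16 ^ (i + 1)) := by
      have : N ≤ 2 ^ (22 * 16 ^ (i + 1)) :=
        hNL.le.trans (Nat.pow_le_pow_right (by norm_num) (by omega))
      exact_mod_cast this
    have h4 := Real.log_le_log hNr h3
    rw [Real.log_pow] at h4
    have h5 : Real.log 2 ≤ 1 := by
      have := Real.log_two_lt_d9
      linarith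
    push_cast at h4
    have h6 : (0 : ℝ) ≤ 22 * 16 ^ (i + 1) := by positivity
    nlinarith
  have hri : r ^ i ≤ (22 : ℝ) ^ η / r * (Real.log N) ^ (-η) := by
    have h3 : r ^ (i + 1) = ((16 : ℝ) ^ (i + 1)) ^ (-η) := by
      rw [hr16, ← Real.rpow_natCast, ← Real.rpow_mul (by norm_num), ← Real.rpow_natCast,
        ← Real.rpow_mul (by norm_num)]
      congr 1
      ring
    have h4 : ((22 : ℝ) * 16 ^ (i + 1)) ^ (-η) ≤ (Real.log N) ^ (-η) :=
      Real.rpow_le_rpow_of_nonpos hlogN hlogN2 (by linarith)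
    have h5 : ((22 : ℝ) * 16 ^ (i + 1)) ^ (-η) = (22 : ℝ) ^ (-η) * r ^ (i + 1) := by
      rw [h3, Real.mul_rpow (by norm_num) (by positivity)]
    rw [h5] at h4
    have h6 : (22 : ℝ) ^ η * (22 : ℝ) ^ (-η) = 1 := by
      rw [← Real.rpow_add (by norm_num)]; simp
    have h7 : 0 < (22 : ℝ) ^ η := Real.rpow_pos_of_pos (by norm_num) _
    have h8 : r ^ (i + 1) ≤ (22 : ℝ) ^ η * (Real.log N) ^ (-η) := by
      calc r ^ (i + 1) = (22 : ℝ) ^ η * ((22 : ℝ) ^ (-η) * r ^ (i + 1)) := by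
            rw [← mul_assoc, h6, one_mul]
        _ ≤ (22 : ℝ) ^ η * (Real.log N) ^ (-η) := mul_le_mul_of_nonneg_left h4 h7.le
    rw [pow_succ] at h8
    calc r ^ i = (r ^ i * r) / r := by field_simp
      _ ≤ ((22 : ℝ) ^ η * (Real.log N) ^ (-η)) / r := div_le_div_of_nonneg_right h8 hr0.le
      _ = (22 : ℝ) ^ η / r * (Real.log N) ^ (-η) := by ring
  refine hfin.trans ?_
  calc (17 + 2 * D) * N * r ^ i ≤ (17 + 2 * D) * N * ((22 : ℝ) ^ η / r * (Real.log N) ^ (-η)) :=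
        mul_le_mul_of_nonneg_left hri (by positivity)
    _ = (22 : ℝ) ^ η * (17 + 2 * D) / r * N * (Real.log N) ^ (-η) := by ring

end Pool.Agent.Y795.SQF
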